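import Pool.Agent.H.MP_267b52_gt.Main

namespace Pool.Agent.Results.MP_267b52_gt.No

open Pool.Agent.H.MP_267b52_gt

theorem result : ∃ U : Set R3, IsOpen U ∧ NoHarmonicIn Cyl (U ∩ Cyl) ∧
    ¬ ∃ f : R3 → ℝ, StrictlyConvexOnCyl (U ∩ Cyl) f := by
  obtain ⟨U, hU, e⟩ := VV_open
  refine ⟨U, hU, e ▸ no_harm, ?_⟩
  rintro ⟨f, hf⟩
  exact no_convex f (e ▸ hf)

end Pool.Agent.Results.MP_267b52_gt.No
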